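import Mathlib

/-!
# Base `m` digits and the Cantor set map `∑ a_n r^(n+1)`
-/

namespace Q211.SL

open Set Filter MeasureTheory Topology
open scoped ENNReal

/-- The `n`-th base `m` digit of `x`. -/
noncomputable def dg (m : ℕ) (n : ℕ) (x : ℝ) : ℤ :=
  ⌊(m:ℝ) ^ (n+1) * x⌋ - m * ⌊(m:ℝ) ^ n * x⌋

theorem dg_nonneg {m : ℕ} (n : ℕ) (x : ℝ) : 0 ≤ dg m n x := by
  unfold dg
  rw [sub_nonneg, Int.le_floor]
  have h1 := Int.floor_le ((m:ℝ) ^ n * x)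
  have h3 : (m:ℝ) ^ (n+1) * x = m * ((m:ℝ) ^ n * x) := by ring
  rw [h3]; push_cast
  exact mul_le_mul_of_nonneg_left h1 (Nat.cast_nonneg m)

theorem dg_lt {m : ℕ} (hm : 0 < m) (n : ℕ) (x : ℝ) : dg m n x < m := by
  unfold dg
  rw [sub_lt_iff_lt_add, Int.floor_lt]
  have h2 := Int.lt_floor_add_one ((m:ℝ) ^ n * x)
  have h3 : (m:ℝ) ^ (n+1) * x = m * ((m:ℝ) ^ n * x) := by ring
  rw [h3]; push_cast
  have hm' : (0:ℝ) < m := by exact_mod_cast hm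
  nlinarith

theorem floor_succ (m n : ℕ) (x : ℝ) :
    ⌊(m:ℝ) ^ (n+1) * x⌋ = m * ⌊(m:ℝ) ^ n * x⌋ + dg m n x := by
  unfold dg; ring

/-- The digit sequence of `x`. -/
noncomputable def ds {m : ℕ} (hm : 0 < m) (x : ℝ) (n : ℕ) : Fin m :=
  ⟨(dg m n x).toNat, by have h1 := dg_nonneg (m := m) n x; have h2 := dg_lt hm n x; omega⟩

theorem ds_coe {m : ℕ} (hm : 0 < m) (x : ℝ) (n : ℕ) : (((ds hm x n : Fin m) : ℕ) : ℤ) = dg m n x := by
  have h1 := dg_nonneg (m := m) n x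
  simp [ds, h1]

/-- Same first `n` digits: same dyadic interval. -/
theorem floor_eq_of_ds {m : ℕ} (hm : 0 < m) {x y : ℝ} (hx : x ∈ Ico (0:ℝ) 1) (hy : y ∈ Ico (0:ℝ) 1)
    {n : ℕ} (h : ∀ i, i < n → ds hm x i = ds hm y i) :
    ⌊(m:ℝ) ^ n * x⌋ = ⌊(m:ℝ) ^ n * y⌋ := by
  induction n with
  | zero =>
      simp only [pow_zero, one_mul]
      rw [Int.floor_eq_zero_iff.2 hx, Int.floor_eq_zero_iff.2 hy]
  | succ n ih =>
      rw [floor_succ, floor_succ, ih (fun i hi => h i (by omega)), ← ds_coe hm, ← ds_coe hm,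
        h n (by omega)]

theorem volume_floor {m : ℕ} (hm : 0 < m) (n : ℕ) (v : ℤ) :
    volume {x : ℝ | ⌊(m:ℝ) ^ n * x⌋ = v} ≤ ENNReal.ofReal ((1/m) ^ n) := by
  have hm' : (0:ℝ) < m := by exact_mod_cast hm
  have hp : (0:ℝ) < (m:ℝ) ^ n := by positivity
  have h1 : {x : ℝ | ⌊(m:ℝ) ^ n * x⌋ = v} ⊆
      Ico ((v:ℝ) / (m:ℝ) ^ n) ((v:ℝ) / (m:ℝ) ^ n + (1/m) ^ n) := by
    intro x hx
    rw [mem_setOf_eq, Int.floor_eq_iff] at hx
    constructor
    · rw [div_le_iff₀ hp]; linarith [hx.1]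
    · have e : (v:ℝ) / (m:ℝ) ^ n + (1/m) ^ n = ((v:ℝ) + 1) / (m:ℝ) ^ n := by
        rw [one_div, inv_pow, add_div, one_div]
      rw [e, lt_div_iff₀ hp]; linarith [hx.2]
  refine (measure_mono h1).trans ?_
  rw [Real.volume_Ico]
  simp

/-- If the digits of `s` and `t` agree from some place on then `s - t` is rational. -/
theorem rat_of_eventually {m : ℕ} (hm : 2 ≤ m) {s t : ℝ} {n : ℕ}
    (h : ∀ i, n ≤ i → ds (by omega : 0 < m) s i = ds (by omega : 0 < m) t i) :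
    ∃ q : ℚ, s = t + q := by
  have hm0 : 0 < m := by omega
  have hm' : (0:ℝ) < m := by exact_mod_cast hm0
  set D : ℕ → ℤ := fun k => ⌊(m:ℝ) ^ k * s⌋ - ⌊(m:ℝ) ^ k * t⌋ with hD
  have hrec : ∀ k, D (n + k) = m ^ k * D n := by
    intro k
    induction k with
    | zero => simp
    | succ k ih =>
        have e1 : D (n + (k+1)) = m * D (n+k) := by
          simp only [hD]
          rw [← add_assoc, floor_succ, floor_succ, ← ds_coe hm0, ← ds_coe hm0, h (n+k) (by omega)]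
          ring
        rw [e1, ih, pow_succ]; ring
  refine ⟨(D n : ℚ) / (m:ℚ) ^ n, ?_⟩
  push_cast
  have hkey : ∀ k : ℕ, |s - t - (D n : ℝ) / (m:ℝ) ^ n| ≤ (1/m) ^ k := by
    intro k
    have hp : (0:ℝ) < (m:ℝ) ^ (n+k) := by positivity
    have a1 := Int.floor_le ((m:ℝ) ^ (n+k) * s)
    have a2 := Int.lt_floor_add_one ((m:ℝ) ^ (n+k) * s)
    have b1 := Int.floor_le ((m:ℝ) ^ (n+k) * t)
    have b2 := Int.lt_floor_add_one ((m:ℝ) ^ (n+k) * t)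
    have hDk : ((D (n+k) : ℤ) : ℝ) = ⌊(m:ℝ) ^ (n+k) * s⌋ - ⌊(m:ℝ) ^ (n+k) * t⌋ := by
      simp only [hD]; push_cast; rfl
    have h1 : |(m:ℝ) ^ (n+k) * (s - t) - D (n+k)| ≤ 1 := by
      rw [hDk, abs_le]
      constructor <;> nlinarith
    have h2 : (m:ℝ) ^ (n+k) * (s - t - (D n : ℝ) / (m:ℝ) ^ n) =
        (m:ℝ) ^ (n+k) * (s - t) - D (n+k) := by
      rw [hrec k]; push_cast
      have : (m:ℝ) ^ n ≠ 0 := by positivity
      field_simp
      ring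
    rw [← h2, abs_mul, abs_of_pos hp] at h1
    have h3 : |s - t - (D n : ℝ) / (m:ℝ) ^ n| ≤ 1 / (m:ℝ) ^ (n+k) := by
      rw [le_div_iff₀ hp]; linarith
    refine h3.trans ?_
    rw [one_div_pow, pow_add]
    apply one_div_le_one_div_of_le (by positivity)
    have h4 : (1:ℝ) ≤ (m:ℝ) ^ n := one_le_pow₀ (by exact_mod_cast hm0)
    nlinarith [pow_pos hm' k]
  have hlim : Tendsto (fun k : ℕ => ((1:ℝ)/m) ^ k) atTop (𝓝 0) := by
    apply tendsto_pow_atTop_nhds_zero_of_lt_one (by positivity)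
    rw [div_lt_one hm']
    exact_mod_cast (by omega : 1 < m)
  have h0 : |s - t - (D n : ℝ) / (m:ℝ) ^ n| ≤ 0 := ge_of_tendsto' hlim hkey
  have := abs_nonpos_iff.1 h0
  linarith

section cantor

variable {m : ℕ} {r : ℝ}

/-- The Cantor set map on digit sequences. -/
noncomputable def G (r : ℝ) (a : ℕ → Fin m) : ℝ := ∑' n, ((a n : ℕ) : ℝ) * r ^ (n+1)

theorem summable_geo (hr0 : 0 < r) (hr1 : r < 1) (B : ℝ) : Summable fun n : ℕ => B * r ^ (n+1) := by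
  have := (summable_geometric_of_lt_one hr0.le hr1).mul_left (B * r)
  refine this.congr fun n => ?_
  rw [pow_succ]; ring

theorem tsum_geo (hr0 : 0 < r) (hr1 : r < 1) (B : ℝ) : ∑' n : ℕ, B * r ^ (n+1) = B * r / (1 - r) := by
  have h : ∀ n : ℕ, B * r ^ (n+1) = (B * r) * r ^ n := fun n => by rw [pow_succ]; ring
  rw [tsum_congr h, tsum_mul_left, tsum_geometric_of_lt_one hr0.le hr1, div_eq_mul_inv]

theorem summable_int (hr0 : 0 < r) (hr1 : r < 1) {c : ℕ → ℤ} {B : ℝ} (hc : ∀ n, |(c n : ℝ)| ≤ B) :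
    Summable fun n : ℕ => (c n : ℝ) * r ^ (n+1) := by
  refine Summable.of_norm_bounded (summable_geo hr0 hr1 B) fun n => ?_
  rw [Real.norm_eq_abs, abs_mul, abs_of_pos (pow_pos hr0 _)]
  exact mul_le_mul_of_nonneg_right (hc n) (pow_pos hr0 _).le

/-- The basic separation estimate. -/
theorem sep (hr0 : 0 < r) (hr1 : r < 1) {c : ℕ → ℤ} {B : ℝ} (hc : ∀ n, |(c n : ℝ)| ≤ B)
    {k : ℕ} (hk0 : ∀ i, i < k → c i = 0) (hk : c k ≠ 0) :
    r ^ (k+1) * (1 - B * r / (1 - r)) ≤ |∑' n, (c n : ℝ) * r ^ (n+1)| := by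
  have hs := summable_int hr0 hr1 hc
  rw [← hs.sum_add_tsum_nat_add (k+1)]
  have h1 : ∑ i ∈ Finset.range (k+1), (c i : ℝ) * r ^ (i+1) = (c k : ℝ) * r ^ (k+1) := by
    rw [Finset.sum_range_succ, Finset.sum_eq_zero, zero_add]
    intro i hi
    rw [hk0 i (Finset.mem_range.1 hi)]; simp
  rw [h1]
  have h2 : |∑' i, (c (i + (k+1)) : ℝ) * r ^ (i + (k+1) + 1)| ≤ r ^ (k+1) * (B * r / (1-r)) := by
    have e : ∀ i : ℕ, (c (i + (k+1)) : ℝ) * r ^ (i + (k+1) + 1) =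
        r ^ (k+1) * ((c (i + (k+1)) : ℝ) * r ^ (i+1)) := fun i => by
      rw [show i + (k+1) + 1 = (k+1) + (i+1) by ring, pow_add]; ring
    rw [tsum_congr e, tsum_mul_left, abs_mul, abs_of_pos (pow_pos hr0 _)]
    refine mul_le_mul_of_nonneg_left ?_ (pow_pos hr0 _).le
    rw [← tsum_geo hr0 hr1 B]
    have hs2 : Summable fun i : ℕ => (c (i + (k+1)) : ℝ) * r ^ (i+1) :=
      summable_int hr0 hr1 (c := fun i => c (i + (k+1))) fun n => hc _
    refine (norm_tsum_le_tsum_norm hs2.norm).trans ?_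
    refine hs2.norm.tsum_le_tsum (fun n => ?_) (summable_geo hr0 hr1 B)
    rw [Real.norm_eq_abs, abs_mul, abs_of_pos (pow_pos hr0 _)]
    exact mul_le_mul_of_nonneg_right (hc _) (pow_pos hr0 _).le
  have h3 : r ^ (k+1) ≤ |(c k : ℝ) * r ^ (k+1)| := by
    rw [abs_mul, abs_of_pos (pow_pos hr0 _)]
    have : (1:ℝ) ≤ |(c k : ℝ)| := by
      have := Int.one_le_abs hk
      exact_mod_cast this
    nlinarith [pow_pos hr0 (k+1)]
  have h4 := abs_add_le ((c k : ℝ) * r ^ (k+1) + ∑' i, (c (i + (k+1)) : ℝ) * r ^ (i + (k+1) + 1))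
    (-∑' i, (c (i + (k+1)) : ℝ) * r ^ (i + (k+1) + 1))
  rw [add_neg_cancel_right, abs_neg] at h4
  have e : r ^ (k+1) * (1 - B * r / (1 - r)) = r ^ (k+1) - r ^ (k+1) * (B * r / (1-r)) := by ring
  rw [e]
  linarith

end cantor

end Q211.SL
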