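import Pool.Agent.Q211.SL.Digits
import Pool.Agent.Q211.HF.Def

/-!
# Hausdorff measure of digit Cantor sets
-/

namespace Q211.SL

open Set Filter MeasureTheory Topology
open scoped ENNReal

open Q211.HF (IsGauge Hd H Hd_le_H Hd_anti)

/-- The power gauge. -/
noncomputable def pg (d : ℝ) (t : ℝ) : ℝ := t ^ d

theorem isGauge_pg {d : ℝ} (hd : 0 < d) : IsGauge (pg d) where
  mono := fun s t hs hst => Real.rpow_le_rpow hs hst hd.le
  rightCont := fun t _ => (Real.continuous_rpow_const hd.le).continuousWithinAt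
  zero := Real.zero_rpow hd.ne'
  pos := fun t ht => Real.rpow_pos_of_pos ht d

theorem Hd_le_finset {f : ℝ → ℝ} (hf0 : f 0 = 0) {δ : ℝ} (hδ : 0 < δ) {ι : Type*} (V : Finset ι)
    (U : ι → Set ℝ) {A : Set ℝ} (hA : A ⊆ ⋃ v ∈ V, U v)
    (hU : ∀ v ∈ V, Bornology.IsBounded (U v) ∧ Metric.diam (U v) ≤ δ) :
    Hd f δ A ≤ ∑ v ∈ V, ENNReal.ofReal (f (Metric.diam (U v))) := by
  classical
  set e := V.equivFin with he
  set W : ℕ → Set ℝ := fun i => if h : i < V.card then U (e.symm ⟨i, h⟩ : V) else ∅ with hW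
  unfold Hd
  refine iInf_le_of_le W (iInf_le_of_le ?_ (iInf_le_of_le ?_ ?_))
  · intro y hy
    have h1 := hA hy
    simp only [mem_iUnion, exists_prop] at h1
    obtain ⟨v, hv, hyv⟩ := h1
    refine mem_iUnion.2 ⟨(e ⟨v, hv⟩ : ℕ), ?_⟩
    simp only [hW]
    rw [dif_pos (e ⟨v, hv⟩).2]
    simpa using hyv
  · intro i
    by_cases h : i < V.card
    · simp only [hW, dif_pos h]
      exact hU _ (e.symm ⟨i, h⟩).2
    · simp only [hW, dif_neg h]
      exact ⟨Bornology.isBounded_empty, by simp [hδ.le]⟩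
  · rw [tsum_eq_sum (s := Finset.range V.card) ?_]
    · rw [Finset.sum_range]
      have h1 : ∀ i : Fin V.card, ENNReal.ofReal (f (Metric.diam (W i))) =
          ENNReal.ofReal (f (Metric.diam (U (e.symm i : V)))) := by
        intro i
        simp only [hW]
        rw [dif_pos i.2]
      rw [Finset.sum_congr rfl (fun i _ => h1 i),
        Equiv.sum_comp e.symm (fun v : V => ENNReal.ofReal (f (Metric.diam (U (v : ι))))),
        Finset.sum_coe_sort V (fun v => ENNReal.ofReal (f (Metric.diam (U v))))]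
    · intro i hi
      have h : ¬ i < V.card := by simpa using hi
      simp only [hW, dif_neg h]
      simp [hf0]

section

variable {m : ℕ} {r d : ℝ}

/-- The standing assumptions on the parameters. -/
structure Par (m : ℕ) (r d : ℝ) : Prop where
  hm : 2 ≤ m
  hd : 0 < d
  hr : 0 < r
  hrm : r * (2 * m) ≤ 1
  hrd : r ^ d = 1 / m

namespace Par

variable (P : Par m r d)

include P

theorem m0 : 0 < m := by have := P.hm; omega

theorem m0' : (0:ℝ) < m := by exact_mod_cast P.m0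

theorem m2' : (2:ℝ) ≤ m := by exact_mod_cast P.hm

theorem r4 : r * 4 ≤ 1 := by
  have h1 := P.hrm
  have h2 := P.m2'
  have h3 := P.hr
  nlinarith

theorem r1 : r < 1 := by
  have := P.r4
  have := P.hr
  linarith

theorem q1 : ((m:ℝ) - 1) * r / (1 - r) < 1/2 := by
  have h1 := P.hrm
  have h3 := P.hr
  have h4 := P.r1
  rw [div_lt_iff₀ (by linarith)]
  nlinarith

theorem q2 : (2 * ((m:ℝ) - 1)) * r / (1 - r) < 1 := by
  have h := P.q1
  have : (2 * ((m:ℝ) - 1)) * r / (1 - r) = 2 * (((m:ℝ) - 1) * r / (1 - r)) := by ring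
  rw [this]; linarith

theorem rpow_n (n : ℕ) : (r ^ n : ℝ) ^ d = (1 / m) ^ n := by
  rw [← Real.rpow_natCast r n, ← Real.rpow_mul P.hr.le, mul_comm, Real.rpow_mul P.hr.le, P.hrd,
    Real.rpow_natCast]

theorem digit_bound (a b : ℕ → Fin m) (n : ℕ) :
    |((((a n : ℕ) : ℤ) - ((b n : ℕ) : ℤ) : ℤ) : ℝ)| ≤ (m:ℝ) - 1 := by
  have h1 := (a n).2
  have h2 := (b n).2
  have h3 : |((a n : ℕ) : ℤ) - ((b n : ℕ) : ℤ)| ≤ (m:ℤ) - 1 := by
    rw [abs_le]; constructor <;> omega
  have : ((|((a n : ℕ) : ℤ) - ((b n : ℕ) : ℤ)| : ℤ) : ℝ) ≤ (((m:ℤ) - 1 : ℤ) : ℝ) := by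
    exact_mod_cast h3
  push_cast at this ⊢
  exact this

theorem summable_G (a : ℕ → Fin m) : Summable fun n : ℕ => ((a n : ℕ) : ℝ) * r ^ (n+1) := by
  have := summable_int P.hr P.r1 (c := fun n => ((a n : ℕ) : ℤ)) (B := m) fun n => by
    have := (a n).2
    push_cast
    rw [abs_of_nonneg (by positivity)]
    exact_mod_cast this.le
  refine this.congr fun n => by push_cast; rfl

theorem G_sub (a b : ℕ → Fin m) :
    G r a - G r b = ∑' n, ((((a n : ℕ) : ℤ) - ((b n : ℕ) : ℤ) : ℤ) : ℝ) * r ^ (n+1) := by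
  unfold G
  rw [← (P.summable_G a).tsum_sub (P.summable_G b)]
  refine tsum_congr fun n => ?_
  push_cast; ring

theorem G_nonneg (a : ℕ → Fin m) : 0 ≤ G r a :=
  tsum_nonneg fun n => mul_nonneg (Nat.cast_nonneg _) (pow_pos P.hr _).le

theorem G_lt (a : ℕ → Fin m) : G r a < 1/2 := by
  refine lt_of_le_of_lt ?_ P.q1
  rw [← tsum_geo P.hr P.r1]
  refine (P.summable_G a).tsum_le_tsum (fun n => ?_) (summable_geo P.hr P.r1 _)
  refine mul_le_mul_of_nonneg_right ?_ (pow_pos P.hr _).le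
  have := (a n).2
  rw [le_sub_iff_add_le]
  exact_mod_cast this

theorem G_close {a b : ℕ → Fin m} {n : ℕ} (h : ∀ i, i < n → a i = b i) :
    |G r a - G r b| ≤ r ^ n := by
  rw [P.G_sub]
  have hs := summable_int P.hr P.r1 (P.digit_bound a b)
  rw [← hs.sum_add_tsum_nat_add n, Finset.sum_eq_zero, zero_add]
  · have e : ∀ i : ℕ, ((((a (i+n) : ℕ) : ℤ) - ((b (i+n) : ℕ) : ℤ) : ℤ) : ℝ) * r ^ (i + n + 1) =
        r ^ n * (((((a (i+n) : ℕ) : ℤ) - ((b (i+n) : ℕ) : ℤ) : ℤ) : ℝ) * r ^ (i+1)) := fun i => by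
      rw [show i + n + 1 = n + (i+1) by ring, pow_add]; ring
    rw [tsum_congr e, tsum_mul_left, abs_mul, abs_of_pos (pow_pos P.hr _)]
    have hs2 : Summable fun i : ℕ =>
        ((((a (i+n) : ℕ) : ℤ) - ((b (i+n) : ℕ) : ℤ) : ℤ) : ℝ) * r ^ (i+1) :=
      summable_int P.hr P.r1 (c := fun i => ((a (i+n) : ℕ) : ℤ) - ((b (i+n) : ℕ) : ℤ))
        fun i => P.digit_bound a b _
    have h1 : |∑' i : ℕ, ((((a (i+n) : ℕ) : ℤ) - ((b (i+n) : ℕ) : ℤ) : ℤ) : ℝ) * r ^ (i+1)| ≤
        ((m:ℝ) - 1) * r / (1 - r) := by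
      rw [← tsum_geo P.hr P.r1]
      refine (norm_tsum_le_tsum_norm hs2.norm).trans ?_
      refine hs2.norm.tsum_le_tsum (fun k => ?_) (summable_geo P.hr P.r1 _)
      rw [Real.norm_eq_abs, abs_mul, abs_of_pos (pow_pos P.hr _)]
      exact mul_le_mul_of_nonneg_right (P.digit_bound a b _) (pow_pos P.hr _).le
    have h2 := P.q1
    calc r ^ n * |∑' i : ℕ, ((((a (i+n) : ℕ) : ℤ) - ((b (i+n) : ℕ) : ℤ) : ℤ) : ℝ) * r ^ (i+1)|
        ≤ r ^ n * 1 := mul_le_mul_of_nonneg_left (by linarith) (pow_pos P.hr _).le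
      _ = r ^ n := mul_one _
  · intro i hi
    rw [h i (Finset.mem_range.1 hi)]; simp

theorem G_far {a b : ℕ → Fin m} {k : ℕ} (h : ∀ i, i < k → a i = b i) (hk : a k ≠ b k) :
    r ^ (k+1) / 2 < |G r a - G r b| := by
  rw [P.G_sub]
  have h1 := sep P.hr P.r1 (P.digit_bound a b) (k := k)
    (fun i hi => by rw [h i hi]; simp) (fun h0 => hk (Fin.ext (by omega)))
  refine lt_of_lt_of_le ?_ h1
  have h2 := P.q1
  have h3 : 0 < r ^ (k+1) := pow_pos P.hr _
  nlinarith

/-- The covering estimate. -/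
theorem cover (allowed : ℕ → Finset (Fin m)) (c : ℝ) {δ : ℝ} (hδ : 0 < δ) {n : ℕ}
    (hn : r ^ n ≤ δ) :
    Hd (pg d) δ ((fun a => G r a + c) '' {a | ∀ i, a i ∈ allowed i}) ≤
      ENNReal.ofReal (∏ i ∈ Finset.range n, ((allowed i).card : ℝ) / m) := by
  classical
  set V := Fintype.piFinset (fun i : Fin n => allowed i) with hV
  set U : (Fin n → Fin m) → Set ℝ := fun p =>
    (fun a => G r a + c) '' {a | (∀ i, a i ∈ allowed i) ∧ ∀ i : Fin n, a i = p i} with hU
  have hdist : ∀ p, ∀ x ∈ U p, ∀ y ∈ U p, dist x y ≤ r ^ n := by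
    intro p x hx y hy
    obtain ⟨a, ha, hax⟩ := hx
    obtain ⟨b, hb, hby⟩ := hy
    have hax' : G r a + c = x := hax
    have hby' : G r b + c = y := hby
    rw [Real.dist_eq, ← hax', ← hby']
    have e : G r a + c - (G r b + c) = G r a - G r b := by ring
    rw [e]
    exact P.G_close fun i hi => (ha.2 ⟨i, hi⟩).trans (hb.2 ⟨i, hi⟩).symm
  have hb : ∀ p, Bornology.IsBounded (U p) := fun p =>
    Metric.isBounded_iff.2 ⟨r ^ n, fun x hx y hy => hdist p x hx y hy⟩
  have hdm : ∀ p, Metric.diam (U p) ≤ r ^ n := fun p =>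
    Metric.diam_le_of_forall_dist_le (pow_pos P.hr n).le (hdist p)
  have h1 := Hd_le_finset (isGauge_pg P.hd).zero hδ V U
    (A := (fun a => G r a + c) '' {a | ∀ i, a i ∈ allowed i}) ?_
    (fun v _ => ⟨hb v, (hdm v).trans hn⟩)
  · refine h1.trans ?_
    have h2 : ∀ v ∈ V, ENNReal.ofReal (pg d (Metric.diam (U v))) ≤
        ENNReal.ofReal ((1/m) ^ n) := by
      intro v _
      apply ENNReal.ofReal_le_ofReal
      rw [← P.rpow_n n]
      exact Real.rpow_le_rpow Metric.diam_nonneg (hdm v) P.hd.le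
    refine (Finset.sum_le_sum h2).trans ?_
    have h3 : V.card = ∏ i ∈ Finset.range n, (allowed i).card := by
      rw [hV, Fintype.card_piFinset, Finset.prod_range]
    rw [Finset.sum_const, nsmul_eq_mul, h3]
    generalize hN : (∏ i ∈ Finset.range n, (allowed i).card) = N
    have h4 : (∏ i ∈ Finset.range n, ((allowed i).card : ℝ) / m) = (N : ℝ) * (1/m) ^ n := by
      rw [Finset.prod_div_distrib, Finset.prod_const, Finset.card_range, one_div, inv_pow,
        ← div_eq_mul_inv, ← hN, Nat.cast_prod]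
    rw [h4, ← ENNReal.ofReal_natCast, ← ENNReal.ofReal_mul (Nat.cast_nonneg N)]
  · intro x hx
    obtain ⟨a, ha, hax⟩ := hx
    have hmem : (fun i : Fin n => a i) ∈ V := by
      rw [hV, Fintype.mem_piFinset]
      exact fun i => ha i
    have hU' : x ∈ U (fun i : Fin n => a i) := by
      rw [hU]
      exact ⟨a, ⟨ha, fun i => rfl⟩, hax⟩
    exact mem_iUnion₂.2 ⟨_, hmem, hU'⟩

/-- The Cantor set. -/
def K (_ : Par m r d) : Set ℝ := range (fun a : ℕ → Fin m => G r a)

omit P in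
theorem K_def (P : Par m r d) : P.K = range (fun a : ℕ → Fin m => G r a) := rfl

theorem continuous_G : Continuous (fun a : ℕ → Fin m => G r a) := by
  unfold G
  refine continuous_tsum (u := fun n => (m:ℝ) * r ^ (n+1)) (fun n => ?_)
    (summable_geo P.hr P.r1 _) (fun n a => ?_)
  · exact ((continuous_of_discreteTopology (f := fun k : Fin m => ((k : ℕ) : ℝ))).comp
      (continuous_apply n)).mul continuous_const
  · rw [Real.norm_eq_abs, abs_mul, abs_of_pos (pow_pos P.hr _), Nat.abs_cast]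
    refine mul_le_mul_of_nonneg_right ?_ (pow_pos P.hr _).le
    exact_mod_cast (a n).2.le

theorem isCompact_add (c : ℝ) : IsCompact ((fun a : ℕ → Fin m => G r a + c) '' univ) :=
  isCompact_univ.image (P.continuous_G.add continuous_const)

theorem H_K_le (c : ℝ) : H (pg d) ((fun a : ℕ → Fin m => G r a + c) '' univ) ≤ 1 := by
  refine iSup_le fun δ => iSup_le fun hδ => ?_
  obtain ⟨n, hn⟩ := exists_pow_lt_of_lt_one hδ P.r1
  have h1 := P.cover (fun _ => Finset.univ) c hδ hn.le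
  have e : {a : ℕ → Fin m | ∀ i, a i ∈ (Finset.univ : Finset (Fin m))} = univ := by
    ext a; simp
  rw [e] at h1
  refine h1.trans ?_
  simp only [Finset.card_univ, Fintype.card_fin]
  rw [div_self P.m0'.ne']
  simp

/-- Intersections of two translates `K + G a`, `K + G b` are null if `a`, `b` differ
infinitely often. -/
theorem H_inter {a b : ℕ → Fin m} (hab : ∀ n, ∃ i, n ≤ i ∧ a i ≠ b i) :
    H (pg d) (((fun x : ℕ → Fin m => G r x + G r a) '' univ) ∩
      ((fun x : ℕ → Fin m => G r x + G r b) '' univ)) = 0 := by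
  classical
  have hm0 := P.m0
  set forb : ℕ → Fin m := fun i =>
    if (a i : ℕ) < (b i : ℕ) then ⟨0, hm0⟩ else ⟨m-1, by omega⟩ with hforb
  set allowed : ℕ → Finset (Fin m) := fun i =>
    if a i = b i then Finset.univ else Finset.univ.erase (forb i) with hall
  have hsub : ((fun x : ℕ → Fin m => G r x + G r a) '' univ) ∩
      ((fun x : ℕ → Fin m => G r x + G r b) '' univ) ⊆
      (fun x : ℕ → Fin m => G r x + G r a) '' {x | ∀ i, x i ∈ allowed i} := by
    rintro w ⟨⟨x, -, hx⟩, ⟨y, -, hy⟩⟩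
    refine ⟨x, fun i => ?_, hx⟩
    -- all coefficients vanish
    have hco : ∀ n, (((x n : ℕ) : ℤ) - ((y n : ℕ) : ℤ)) + (((a n : ℕ) : ℤ) - ((b n : ℕ) : ℤ)) = 0 := by
      by_contra hne
      push Not at hne
      have hk := Nat.find_spec hne
      have hk0 : ∀ i, i < Nat.find hne →
          (((x i : ℕ) : ℤ) - ((y i : ℕ) : ℤ)) + (((a i : ℕ) : ℤ) - ((b i : ℕ) : ℤ)) = 0 := by
        intro i hi
        by_contra h
        exact Nat.find_min hne hi h
      have hB : ∀ n, |(((((x n : ℕ) : ℤ) - ((y n : ℕ) : ℤ)) +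
          (((a n : ℕ) : ℤ) - ((b n : ℕ) : ℤ)) : ℤ) : ℝ)| ≤ 2 * ((m:ℝ) - 1) := by
        intro n
        have h1 := P.digit_bound x y n
        have h2 := P.digit_bound a b n
        rw [Int.cast_add]
        refine (abs_add_le _ _).trans ?_
        linarith
      have h1 := sep P.hr P.r1 hB hk0 hk
      have h2 : ∑' n, ((((((x n : ℕ) : ℤ) - ((y n : ℕ) : ℤ)) +
          (((a n : ℕ) : ℤ) - ((b n : ℕ) : ℤ)) : ℤ) : ℝ)) * r ^ (n+1) = 0 := by
        have e : ∀ n : ℕ, ((((((x n : ℕ) : ℤ) - ((y n : ℕ) : ℤ)) +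
            (((a n : ℕ) : ℤ) - ((b n : ℕ) : ℤ)) : ℤ) : ℝ)) * r ^ (n+1) =
            (((((x n : ℕ) : ℤ) - ((y n : ℕ) : ℤ) : ℤ)) : ℝ) * r ^ (n+1) +
            (((((a n : ℕ) : ℤ) - ((b n : ℕ) : ℤ) : ℤ)) : ℝ) * r ^ (n+1) := fun n => by
          rw [Int.cast_add, add_mul]
        rw [tsum_congr e, (summable_int P.hr P.r1 (P.digit_bound x y)).tsum_add
          (summable_int P.hr P.r1 (P.digit_bound a b)), ← P.G_sub, ← P.G_sub]
        simp only at hx hy
        linarith
      rw [h2, abs_zero] at h1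
      have h3 := P.q2
      have h4 : 0 < r ^ (Nat.find hne + 1) := pow_pos P.hr _
      have h5 : 0 < 1 - 2 * ((m:ℝ) - 1) * r / (1 - r) := by linarith
      nlinarith [mul_pos h4 h5]
    simp only [hall]
    by_cases hi : a i = b i
    · rw [if_pos hi]; exact Finset.mem_univ _
    · rw [if_neg hi, Finset.mem_erase]
      refine ⟨fun hxi => ?_, Finset.mem_univ _⟩
      have h1 := hco i
      have h2 := (x i).2
      have h3 := (y i).2
      have h4 : (a i : ℕ) ≠ (b i : ℕ) := fun h => hi (Fin.ext h)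
      simp only [hforb] at hxi
      by_cases h5 : (a i : ℕ) < (b i : ℕ)
      · rw [if_pos h5] at hxi
        have h6 : (x i : ℕ) = 0 := by rw [hxi]
        omega
      · rw [if_neg h5] at hxi
        have h6 : (x i : ℕ) = m - 1 := by rw [hxi]
        omega
  have hq0 : ∀ i, 0 ≤ ((allowed i).card : ℝ) / m := fun i =>
    div_nonneg (Nat.cast_nonneg _) P.m0'.le
  have hq1 : ∀ i, ((allowed i).card : ℝ) / m ≤ 1 := fun i => by
    rw [div_le_one P.m0']
    have : (allowed i).card ≤ m := by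
      have := Finset.card_le_univ (allowed i)
      simpa using this
    exact_mod_cast this
  have hq2 : ∀ i, a i ≠ b i → ((allowed i).card : ℝ) / m = 1 - 1 / m := fun i hi => by
    simp only [hall]
    rw [if_neg hi, Finset.card_erase_of_mem (Finset.mem_univ _), Finset.card_univ,
      Fintype.card_fin, Nat.cast_sub (by omega)]
    have := P.m0'.ne'
    field_simp
    simp
  have hprod : ∀ k : ℕ, ∃ N, ∀ n, N ≤ n →
      ∏ i ∈ Finset.range n, ((allowed i).card : ℝ) / m ≤ (1 - 1 / m) ^ k := by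
    have hanti : ∀ n n', n ≤ n' → ∏ i ∈ Finset.range n', ((allowed i).card : ℝ) / m ≤
        ∏ i ∈ Finset.range n, ((allowed i).card : ℝ) / m := by
      intro n n' h
      induction n', h using Nat.le_induction with
      | base => exact le_rfl
      | succ n' _ ih =>
          rw [Finset.prod_range_succ]
          refine le_trans ?_ ih
          exact mul_le_of_le_one_right (Finset.prod_nonneg fun i _ => hq0 i) (hq1 _)
    intro k
    induction k with
    | zero =>
        refine ⟨0, fun n _ => ?_⟩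
        rw [pow_zero]
        exact Finset.prod_le_one (fun i _ => hq0 i) (fun i _ => hq1 i)
    | succ k ih =>
        obtain ⟨N, hN⟩ := ih
        obtain ⟨i, hi, hi'⟩ := hab N
        refine ⟨i+1, fun n hn => (hanti _ _ hn).trans ?_⟩
        rw [Finset.prod_range_succ, hq2 i hi', pow_succ]
        refine mul_le_mul_of_nonneg_right (hN i hi) ?_
        rw [sub_nonneg, div_le_one P.m0']
        exact_mod_cast P.m0
  refine le_antisymm (iSup_le fun δ => iSup_le fun hδ => ?_) bot_le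
  have hlt : (1:ℝ) - 1 / m < 1 := by
    have : (0:ℝ) < 1 / m := by have := P.m0'; positivity
    linarith
  have hge : (0:ℝ) ≤ 1 - 1 / m := by
    rw [sub_nonneg, div_le_one P.m0']
    exact_mod_cast P.m0
  have hle : ∀ k : ℕ, Hd (pg d) δ (((fun x : ℕ → Fin m => G r x + G r a) '' univ) ∩
      ((fun x : ℕ → Fin m => G r x + G r b) '' univ)) ≤ ENNReal.ofReal ((1 - 1 / m) ^ k) := by
    intro k
    obtain ⟨N, hN⟩ := hprod k
    obtain ⟨n, hn⟩ := exists_pow_lt_of_lt_one hδ P.r1
    have h1 : r ^ (max n N) ≤ δ :=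
      (pow_le_pow_of_le_one P.hr.le P.r1.le (le_max_left n N)).trans hn.le
    have h2 := P.cover allowed (G r a) hδ h1
    have h3 : Hd (pg d) δ (((fun x : ℕ → Fin m => G r x + G r a) '' univ) ∩
        ((fun x : ℕ → Fin m => G r x + G r b) '' univ)) ≤
        Hd (pg d) δ ((fun x : ℕ → Fin m => G r x + G r a) '' {x | ∀ i, x i ∈ allowed i}) := by
      unfold Hd
      refine le_iInf fun U => le_iInf fun hU => le_iInf fun hd' => ?_
      exact iInf_le_of_le U (iInf_le_of_le (hsub.trans hU) (iInf_le_of_le hd' le_rfl))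
    exact h3.trans (h2.trans (ENNReal.ofReal_le_ofReal (hN _ (le_max_right _ _))))
  have hlim : Tendsto (fun k : ℕ => ENNReal.ofReal ((1 - 1 / (m:ℝ)) ^ k)) atTop (𝓝 0) := by
    have := ENNReal.tendsto_ofReal (tendsto_pow_atTop_nhds_zero_of_lt_one hge hlt)
    rwa [ENNReal.ofReal_zero] at this
  exact ge_of_tendsto' hlim hle

/-- The mass distribution estimate. -/
theorem volume_le {A : Set ℝ} (hA : A ⊆ Ico 0 1) (c : ℝ) :
    volume A ≤ ENNReal.ofReal ((2 / r) ^ d) *
      H (pg d) ((fun x => G r (ds P.m0 x) + c) '' A) := by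
  have key : ∀ U : Set ℝ, Bornology.IsBounded U → Metric.diam U ≤ 1/4 →
      volume {x | x ∈ A ∧ G r (ds P.m0 x) + c ∈ U} ≤
        ENNReal.ofReal ((2 / r) ^ d) * ENNReal.ofReal (pg d (Metric.diam U)) := by
    intro U hUb hUd
    have hpre : ∀ n : ℕ, 2 * Metric.diam U ≤ r ^ n →
        volume {x | x ∈ A ∧ G r (ds P.m0 x) + c ∈ U} ≤ ENNReal.ofReal ((1/m) ^ n) := by
      intro n hn
      rcases ({x | x ∈ A ∧ G r (ds P.m0 x) + c ∈ U} : Set ℝ).eq_empty_or_nonempty with he | ⟨y, hy⟩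
      · rw [he]; simp
      · refine (measure_mono ?_).trans (volume_floor P.m0 n ⌊(m:ℝ) ^ n * y⌋)
        intro x hx
        rw [mem_setOf_eq]
        refine floor_eq_of_ds P.m0 (hA hx.1) (hA hy.1) fun i hi => ?_
        by_contra hne
        -- first difference
        have hex : ∃ k, ds P.m0 x k ≠ ds P.m0 y k := ⟨i, hne⟩
        classical
        have hk := Nat.find_spec hex
        have hk0 : ∀ j, j < Nat.find hex → ds P.m0 x j = ds P.m0 y j := by
          intro j hj
          by_contra h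
          exact Nat.find_min hex hj h
        have hkn : Nat.find hex < n := (Nat.find_min' hex hne).trans_lt hi
        have h1 := P.G_far hk0 hk
        have h2 : r ^ n ≤ r ^ (Nat.find hex + 1) := pow_le_pow_of_le_one P.hr.le P.r1.le hkn
        have h3 := Metric.dist_le_diam_of_mem hUb hx.2 hy.2
        rw [Real.dist_eq] at h3
        have e : G r (ds P.m0 x) + c - (G r (ds P.m0 y) + c) =
            G r (ds P.m0 x) - G r (ds P.m0 y) := by ring
        rw [e] at h3
        linarith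
    rcases (Metric.diam_nonneg (s := U)).eq_or_lt with h0 | h0
    · have h1 : volume {x | x ∈ A ∧ G r (ds P.m0 x) + c ∈ U} ≤ 0 := by
        have hlim : Tendsto (fun k : ℕ => ENNReal.ofReal ((1 / (m:ℝ)) ^ k)) atTop (𝓝 0) := by
          have hlt : (1:ℝ) / m < 1 := by
            rw [div_lt_one P.m0']
            have := P.m2'; linarith
          have := ENNReal.tendsto_ofReal (tendsto_pow_atTop_nhds_zero_of_lt_one
            (by have := P.m0'; positivity) hlt)
          rwa [ENNReal.ofReal_zero] at this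
        refine ge_of_tendsto' hlim fun n => hpre n ?_
        rw [← h0, mul_zero]
        exact (pow_pos P.hr n).le
      exact h1.trans bot_le
    · obtain ⟨n, hn1, hn2⟩ := exists_nat_pow_near_of_lt_one (x := 2 * Metric.diam U)
        (by linarith) (by linarith) P.hr P.r1
      refine (hpre n hn2).trans ?_
      rw [← ENNReal.ofReal_mul (by have := P.hr; positivity)]
      apply ENNReal.ofReal_le_ofReal
      unfold pg
      rw [← P.rpow_n n, ← Real.mul_rpow (by have := P.hr; positivity) h0.le]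
      refine Real.rpow_le_rpow (pow_pos P.hr n).le ?_ P.hd.le
      rw [div_mul_eq_mul_div, le_div_iff₀ P.hr, ← pow_succ]
      exact hn1.le
  have hlow : volume A ≤ ENNReal.ofReal ((2 / r) ^ d) *
      Hd (pg d) (1/4) ((fun x => G r (ds P.m0 x) + c) '' A) := by
    have hC0 : ENNReal.ofReal ((2 / r) ^ d) ≠ 0 := by
      have := P.hr
      simp only [ne_eq, ENNReal.ofReal_eq_zero, not_le]
      positivity
    unfold Hd
    rw [ENNReal.mul_iInf_of_ne hC0 ENNReal.ofReal_ne_top]
    refine le_iInf fun U => ?_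
    rw [ENNReal.mul_iInf_of_ne hC0 ENNReal.ofReal_ne_top]
    refine le_iInf fun hU => ?_
    rw [ENNReal.mul_iInf_of_ne hC0 ENNReal.ofReal_ne_top]
    refine le_iInf fun hUd => ?_
    have h1 : A ⊆ ⋃ j, {x | x ∈ A ∧ G r (ds P.m0 x) + c ∈ U j} := by
      intro x hx
      obtain ⟨j, hj⟩ := mem_iUnion.1 (hU ⟨x, hx, rfl⟩)
      exact mem_iUnion.2 ⟨j, hx, hj⟩
    calc volume A ≤ volume (⋃ j, {x | x ∈ A ∧ G r (ds P.m0 x) + c ∈ U j}) := measure_mono h1
      _ ≤ ∑' j, volume {x | x ∈ A ∧ G r (ds P.m0 x) + c ∈ U j} := measure_iUnion_le _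
      _ ≤ ∑' j, ENNReal.ofReal ((2 / r) ^ d) * ENNReal.ofReal (pg d (Metric.diam (U j))) :=
          ENNReal.tsum_le_tsum fun j => key (U j) (hUd j).1 (hUd j).2
      _ = _ := ENNReal.tsum_mul_left
  refine hlow.trans ?_
  gcongr
  exact Hd_le_H _ _ (by norm_num)

end Par

end

end Q211.SL
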