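import Pool.Agent.Q211.SL.Geo

/-!
# Failure of semilocalizability of `H^d` on `[0,1]` when `non(N) < cov(N)`
-/

namespace Q211.SL

open Set Filter MeasureTheory Topology Cardinal
open scoped ENNReal

open Q211.HF (IsGauge Hd H Hd_le_H Hd_anti H_eq)

/-- `A` is a Caratheodory `H^d`-measurable subset of `[0,1]`. -/
def Meas (d : ℝ) (A : Set ℝ) : Prop :=
  A ⊆ Icc 0 1 ∧ ∀ E : Set ℝ, E ⊆ Icc 0 1 → H (pg d) E = H (pg d) (E ∩ A) + H (pg d) (E \ A)

/-- The locally null sets: measurable sets `Z` such that `H^d (Z ∩ F) = 0` for all measurable `F`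
with `H^d F < ∞`. -/
def LocNull (d : ℝ) (Z : Set ℝ) : Prop :=
  Meas d Z ∧ ∀ F : Set ℝ, Meas d F → H (pg d) F < ⊤ → H (pg d) (Z ∩ F) = 0

/-- Every subset of the quotient Boolean algebra `𝒜/𝒩` has a supremum. -/
def Localizable (𝒜 𝒩 : Set (Set ℝ)) : Prop :=
  ∀ 𝓕 : Set (Set ℝ), 𝓕 ⊆ 𝒜 → ∃ S ∈ 𝒜, (∀ F ∈ 𝓕, F \ S ∈ 𝒩) ∧
    ∀ S' ∈ 𝒜, (∀ F ∈ 𝓕, F \ S' ∈ 𝒩) → S \ S' ∈ 𝒩

/-- The measure space `([0,1], 𝒜_{H^d}, H^d)` is semilocalizable. -/
def Semilocalizable (d : ℝ) : Prop := Localizable {A | Meas d A} {Z | LocNull d Z}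

/-- `non(N)`: the least cardinality of a set of reals which is not Lebesgue null. -/
noncomputable def nonN : Cardinal.{0} :=
  sInf {κ | ∃ X : Set ℝ, #X = κ ∧ volume X ≠ 0}

/-- `cov(N)`: the least cardinality of a family of Lebesgue null sets covering the real line. -/
noncomputable def covN : Cardinal.{0} :=
  sInf {κ | ∃ 𝒩 : Set (Set ℝ), #𝒩 = κ ∧ (∀ N ∈ 𝒩, volume N = 0) ∧ ⋃₀ 𝒩 = Set.univ}

theorem exists_par {d : ℝ} (h0 : 0 < d) (h1 : d < 1) : ∃ (m : ℕ) (r : ℝ), Par m r d := by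
  have hy : 0 < 1 / d - 1 := by
    rw [sub_pos, lt_div_iff₀ h0]; linarith
  have ht : Tendsto (fun n : ℕ => (n : ℝ) ^ (1 / d - 1)) atTop atTop :=
    (tendsto_rpow_atTop hy).comp tendsto_natCast_atTop_atTop
  obtain ⟨m, hm, hm2⟩ := ((ht.eventually_ge_atTop 2).and (eventually_ge_atTop 2)).exists
  have hm0 : (0:ℝ) < m := by
    have : 0 < m := by omega
    exact_mod_cast this
  have hp : (0:ℝ) < (m:ℝ) ^ (1 / d) := Real.rpow_pos_of_pos hm0 _
  refine ⟨m, ((m:ℝ) ^ (1 / d))⁻¹, hm2, h0, inv_pos.2 hp, ?_, ?_⟩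
  · have e : (m:ℝ) ^ (1 / d) = (m:ℝ) ^ (1 / d - 1) * m := by
      rw [Real.rpow_sub hm0, Real.rpow_one, div_mul_cancel₀ _ hm0.ne']
    rw [inv_mul_eq_div, div_le_one hp, e]
    exact mul_le_mul_of_nonneg_right hm hm0.le
  · rw [Real.inv_rpow hp.le, ← Real.rpow_mul hm0.le, one_div_mul_cancel h0.ne', Real.rpow_one,
      one_div]

section basic

variable {d : ℝ}

theorem H_mono {A B : Set ℝ} (h : A ⊆ B) : H (pg d) A ≤ H (pg d) B := by
  unfold H
  refine iSup_mono fun δ => iSup_mono fun hδ => ?_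
  unfold Hd
  exact le_iInf fun U => le_iInf fun hU => le_iInf fun hd =>
    iInf_le_of_le U (iInf_le_of_le (h.trans hU) (iInf_le_of_le hd le_rfl))

theorem H_union_null (hd : 0 < d) {A B : Set ℝ} (hA : H (pg d) A = 0) (hB : H (pg d) B = 0) :
    H (pg d) (A ∪ B) = 0 := by
  rw [H_eq (isGauge_pg hd)] at hA hB ⊢
  exact measure_union_null hA hB

theorem meas_of_measurable (hd : 0 < d) {A : Set ℝ} (hA : A ⊆ Icc 0 1) (hm : MeasurableSet A) :
    Meas d A := by
  refine ⟨hA, fun E _ => ?_⟩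
  simp only [H_eq (isGauge_pg hd)]
  exact (measure_inter_add_diff E hm).symm

theorem Meas.diff {A B : Set ℝ} (hA : Meas d A) (hB : Meas d B) : Meas d (A \ B) := by
  refine ⟨diff_subset.trans hA.1, fun E hE => ?_⟩
  have h1 := hA.2 E hE
  have h2 := hB.2 (E ∩ A) (inter_subset_left.trans hE)
  have h3 := hA.2 (E \ (A \ B)) (diff_subset.trans hE)
  have e1 : E \ (A \ B) ∩ A = E ∩ A ∩ B := by
    ext x; simp only [mem_inter_iff, mem_diff]; tauto
  have e2 : (E \ (A \ B)) \ A = E \ A := by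
    ext x; simp only [mem_diff]; tauto
  have e3 : (E ∩ A) \ B = E ∩ (A \ B) := by
    ext x; simp only [mem_inter_iff, mem_diff]; tauto
  rw [e1, e2] at h3
  rw [e3] at h2
  rw [h3, h1, h2]
  rw [add_comm (H (pg d) (E ∩ A ∩ B)), add_assoc]

end basic

/-- The basic construction. -/
theorem not_semi {X : Set ℝ} (hX : volume X ≠ 0)
    (hcov : ∀ N : ℝ → Set ℝ, (∀ x, volume (N x) = 0) → ∃ y : ℝ, ∀ x ∈ X, y ∉ N x)
    {d : ℝ} (h0 : 0 < d) (h1 : d < 1) : ¬ Semilocalizable d := by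
  intro hS
  obtain ⟨m, r, P⟩ := exists_par h0 h1
  -- the set of fractional parts
  set T : Set ℝ := Int.fract '' X with hT
  have hTI : T ⊆ Ico 0 1 := by
    rintro _ ⟨x, -, rfl⟩
    exact ⟨Int.fract_nonneg x, Int.fract_lt_one x⟩
  have hT0 : volume T ≠ 0 := by
    intro h
    apply hX
    have hsub : X ⊆ ⋃ k : ℤ, (fun y : ℝ => y + k) ⁻¹' T := by
      intro x hx
      refine mem_iUnion.2 ⟨-⌊x⌋, ?_⟩
      rw [mem_preimage]
      have : x + ((-⌊x⌋ : ℤ) : ℝ) = Int.fract x := by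
        push_cast; rw [← sub_eq_add_neg]; rfl
      rw [this]
      exact ⟨x, hx, rfl⟩
    refine measure_mono_null hsub (measure_iUnion_null fun k => ?_)
    rw [measure_preimage_add_right, h]
  -- the compact sets
  set g : ℝ → ℝ := fun x => G r (ds P.m0 x) with hg
  set Kt : ℝ → Set ℝ := fun x => (fun a : ℕ → Fin m => G r a + g x) '' univ with hKt
  have hKI : ∀ x, Kt x ⊆ Icc 0 1 := by
    rintro x _ ⟨a, -, rfl⟩
    have e1 := P.G_nonneg a
    have e2 := P.G_nonneg (ds P.m0 x)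
    have e3 := P.G_lt a
    have e4 := P.G_lt (ds P.m0 x)
    constructor
    · show 0 ≤ G r a + G r (ds P.m0 x)
      linarith
    · show G r a + G r (ds P.m0 x) ≤ 1
      linarith
  have hKm : ∀ x, Meas d (Kt x) := fun x =>
    meas_of_measurable h0 (hKI x) (P.isCompact_add (g x)).measurableSet
  have hKf : ∀ x, H (pg d) (Kt x) < ⊤ := fun x =>
    (P.H_K_le (g x)).trans_lt ENNReal.one_lt_top
  have hmemK : ∀ x y, g y + g x ∈ Kt x := fun x y => ⟨ds P.m0 y, mem_univ _, rfl⟩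
  obtain ⟨S, hSm, hSup, hSleast⟩ := hS {F | ∃ t ∈ T, F = Kt t} (by
    rintro _ ⟨t, -, rfl⟩
    exact hKm t)
  have hSt : ∀ t ∈ T, H (pg d) (Kt t \ S) = 0 := by
    intro t ht
    have := (hSup (Kt t) ⟨t, ht, rfl⟩).2 (Kt t) (hKm t) (hKf t)
    rwa [inter_eq_self_of_subset_left diff_subset] at this
  -- the null sets
  set N : ℝ → Set ℝ := fun t => {x | x ∈ Ico (0:ℝ) 1 ∧ g x + g t ∉ S} with hN
  have hNn : ∀ t ∈ T, volume (N t) = 0 := by
    intro t ht
    have h2 := P.volume_le (A := N t) (fun x hx => hx.1) (g t)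
    have h3 : H (pg d) ((fun x => G r (ds P.m0 x) + g t) '' N t) = 0 := by
      refine le_antisymm ?_ bot_le
      rw [← hSt t ht]
      apply H_mono
      rintro _ ⟨x, hx, rfl⟩
      exact ⟨hmemK t x, hx.2⟩
    rw [h3, mul_zero] at h2
    exact le_antisymm h2 bot_le
  obtain ⟨s, hsI, hs⟩ : ∃ s ∈ Ico (0:ℝ) 1, ∀ t ∈ T, s ∉ N t ∧ ∀ q : ℚ, t ≠ s + q := by
    classical
    obtain ⟨y, hy⟩ := hcov (fun x => if x ∈ X then
      (⋃ k : ℤ, (fun y : ℝ => y + k) ⁻¹' N (Int.fract x)) ∪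
        (⋃ q : ℚ, {Int.fract x + (q : ℝ)}) else ∅) (by
      intro x
      split_ifs with hx
      · refine measure_union_null (measure_iUnion_null fun k => ?_)
          (measure_iUnion_null fun q => ?_)
        · rw [measure_preimage_add_right]
          exact hNn _ ⟨x, hx, rfl⟩
        · exact Real.volume_singleton
      · exact measure_empty)
    refine ⟨Int.fract y, ⟨Int.fract_nonneg y, Int.fract_lt_one y⟩, ?_⟩
    rintro _ ⟨x, hx, rfl⟩
    have h2 := hy x hx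
    rw [if_pos hx] at h2
    constructor
    · intro h3
      apply h2
      refine Or.inl (mem_iUnion.2 ⟨-⌊y⌋, ?_⟩)
      rw [mem_preimage]
      have : y + ((-⌊y⌋ : ℤ) : ℝ) = Int.fract y := by
        push_cast; rw [← sub_eq_add_neg]; rfl
      rw [this]
      exact h3
    · intro q h3
      apply h2
      refine Or.inr (mem_iUnion.2 ⟨(⌊y⌋ : ℚ) - q, ?_⟩)
      rw [mem_singleton_iff, h3]
      push_cast
      have : y = ⌊y⌋ + Int.fract y := (Int.floor_add_fract y).symm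
      linarith
  have hinter : ∀ t ∈ T, H (pg d) (Kt t ∩ Kt s) = 0 := by
    intro t ht
    refine P.H_inter fun n => ?_
    by_contra hcon
    push Not at hcon
    obtain ⟨q, hq⟩ := rat_of_eventually P.hm (s := t) (t := s) (n := n) hcon
    exact (hs t ht).2 q hq
  -- the smaller upper bound
  have hS'm : Meas d (S \ Kt s) := Meas.diff hSm (hKm s)
  have hS' := hSleast (S \ Kt s) hS'm (by
    rintro _ ⟨t, ht, rfl⟩
    refine ⟨Meas.diff (hKm t) hS'm, fun F _ _ => ?_⟩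
    have h2 : H (pg d) ((Kt t \ S) ∪ (Kt t ∩ Kt s)) = 0 :=
      H_union_null h0 (hSt t ht) (hinter t ht)
    refine le_antisymm ((H_mono ?_).trans h2.le) bot_le
    rintro x ⟨⟨hx1, hx2⟩, -⟩
    by_cases hxS : x ∈ S
    · right
      refine ⟨hx1, ?_⟩
      by_contra hxK
      exact hx2 ⟨hxS, hxK⟩
    · left
      exact ⟨hx1, hxS⟩)
  have h2 := hS'.2 (Kt s) (hKm s) (hKf s)
  have h3 : H (pg d) ((fun x => G r (ds P.m0 x) + g s) '' T) = 0 := by
    refine le_antisymm ?_ bot_le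
    rw [← h2]
    apply H_mono
    rintro _ ⟨t, ht, rfl⟩
    have hsN := (hs t ht).1
    have hmem : g s + g t ∈ S := by
      by_contra hcon
      exact hsN ⟨hsI, hcon⟩
    have hmem' : g t + g s ∈ S := by rwa [add_comm]
    exact ⟨⟨hmem', fun h4 => h4.2 (hmemK s t)⟩, hmemK s t⟩
  have h4 := P.volume_le hTI (g s)
  rw [h3, mul_zero] at h4
  exact hT0 (le_antisymm h4 bot_le)

/-- If `non(N) < cov(N)`, then `([0,1], 𝒜_{H^d}, H^d)` is not semilocalizable, for every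
`0 < d < 1`. -/
theorem not_semilocalizable (h : nonN < covN) {d : ℝ} (h0 : 0 < d) (h1 : d < 1) :
    ¬ Semilocalizable d := by
  have hne : {κ : Cardinal.{0} | ∃ X : Set ℝ, #X = κ ∧ volume X ≠ 0}.Nonempty :=
    ⟨_, Set.univ, rfl, by simp⟩
  obtain ⟨X, hXc, hX⟩ := csInf_mem hne
  refine not_semi hX (fun N hN => ?_) h0 h1
  by_contra hcon
  push Not at hcon
  refine absurd h (not_lt.2 ?_)
  have h2 : covN ≤ #(N '' X) := by
    refine csInf_le' ⟨N '' X, rfl, ?_, ?_⟩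
    · rintro _ ⟨x, -, rfl⟩
      exact hN x
    · refine eq_univ_of_forall fun y => ?_
      obtain ⟨x, hx, hy⟩ := hcon y
      exact ⟨N x, ⟨x, hx, rfl⟩, hy⟩
  refine h2.trans (mk_image_le.trans ?_)
  rw [hXc]
  exact le_rfl

end Q211.SL
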