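import Pool.Agent.Q284.SL.Stm

/-!
# Newton's formulas for powers
-/

set_option autoImplicit false

open Finset Polynomial ComplexConjugate

namespace Q211.SL

open Pool.Agent.Q284.SL

theorem coeff_SA (s : ℕ → ℂ) (N n : ℕ) (hn : n ≤ N) (P : ℂ[X]) :
    ((∑ m ∈ Icc 1 N, C (s m) * X ^ m) * P).coeff n = ∑ m ∈ Icc 1 n, s m * P.coeff (n - m) := by
  rw [Finset.sum_mul, finsetSum_coeff]
  have h1 : Icc 1 n = (Icc 1 N).filter (fun m => m ≤ n) := by
    ext m
    simp only [mem_Icc, mem_filter]
    omega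
  rw [h1, Finset.sum_filter]
  refine Finset.sum_congr rfl fun m _ => ?_
  rw [mul_assoc, coeff_C_mul, coeff_X_pow_mul']
  split_ifs <;> simp

theorem coeff_XD (P : ℂ[X]) (n : ℕ) : (X * P.derivative).coeff n = (n : ℂ) * P.coeff n := by
  rcases n with _ | n
  · simp
  · rw [coeff_X_mul, coeff_derivative]
    push_cast
    ring

theorem t_NPW : S_NPW := by
  intro r h A s hr hA n hn1 hn
  have hr0 : (r : ℂ) ≠ 0 := by
    have : r ≠ 0 := by omega
    exact_mod_cast this
  set S : ℂ[X] := ∑ m ∈ Icc 1 n, C (s m) * X ^ m with hS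
  have h1 : (X : ℂ[X]) ^ (n + 1) ∣ C (r : ℂ) * (X * A.derivative) - S * A := by
    rw [X_pow_dvd_iff]
    intro d hd
    rw [coeff_sub, coeff_C_mul, coeff_XD, hS, coeff_SA s n d (by omega)]
    rcases Nat.eq_zero_or_pos d with h0 | h0
    · subst h0
      simp
    · rw [hA d h0 (by omega), mul_sum, sub_eq_zero]
      refine Finset.sum_congr rfl fun m _ => ?_
      field_simp
  have h2 : (X : ℂ[X]) ^ (n + 1) ∣ X * (A ^ r).derivative - S * A ^ r := by
    have h3 : X * (A ^ r).derivative - S * A ^ r =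
        A ^ (r - 1) * (C (r : ℂ) * (X * A.derivative) - S * A) := by
      have h4 : A ^ r = A ^ (r - 1) * A := by
        rw [← pow_succ]
        congr 1
        omega
      rw [derivative_pow, h4]
      simp only [map_natCast]
      ring
    rw [h3]
    exact Dvd.dvd.mul_left h1 _
  rw [X_pow_dvd_iff] at h2
  have h5 := h2 n (by omega)
  rw [coeff_sub, coeff_XD, hS, coeff_SA s n n le_rfl, sub_eq_zero] at h5
  exact h5

end Q211.SL
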