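import Pool.Agent.Q284.SL.Stm

/-!
# The low coefficients of the pattern polynomial
-/

set_option autoImplicit false

open Finset Polynomial ComplexConjugate

namespace Q211.SL

open Pool.Agent.Q284.SL

theorem X_dvd_star (h : ℕ) (A : ℂ[X]) : (X : ℂ[X]) ^ (h / 2 + 1) ∣ star h A := by
  unfold Pool.Agent.Q284.SL.star
  refine Finset.dvd_sum fun n hn => ?_
  rw [mem_filter, mem_range] at hn
  exact Dvd.dvd.mul_left (pow_dvd_pow _ (by omega)) _

theorem t_PLO : S_PLO := by
  intro r h U A hU n hn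
  unfold pat
  rw [Finset.sum_range_succ', hU, pow_zero, mul_one, map_one, one_mul, Nat.sub_zero, coeff_add]
  have h1 : (X : ℂ[X]) ^ (h / 2 + 1) ∣
      ∑ j ∈ range r, C (U.coeff (j + 1)) * A ^ (r - (j + 1)) * star h A ^ (j + 1) := by
    refine Finset.dvd_sum fun j _ => ?_
    exact Dvd.dvd.mul_left ((X_dvd_star h A).trans (dvd_pow_self _ (by omega))) _
  rw [X_pow_dvd_iff] at h1
  rw [h1 n (by omega), zero_add]

end Q211.SL
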